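import Pool.Agent.R284.RC.Stm

set_option autoImplicit false
open MeasureTheory Set Filter Topology
open scoped ENNReal NNReal

namespace Pool.Agent.R345.RC

open Pool.Agent.R284.RC

lemma meas_kr {n : ℕ} (p : ℝ) : Measurable (fun z : E n × E n => kr p z.1 z.2) := by
  unfold kr
  split_ifs
  · exact (Real.measurable_log.comp (measurable_fst.dist measurable_snd)).neg
  · exact (measurable_fst.dist measurable_snd).pow_const _

lemma meas_ke {n : ℕ} (p : ℝ) : Measurable (fun z : E n × E n => ke p z.1 z.2) := by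
  unfold ke
  refine Measurable.ite ?_ measurable_const ?_
  · exact measurableSet_eq_fun measurable_fst measurable_snd
  · exact ENNReal.measurable_ofReal.comp (continuous_abs.measurable.comp (meas_kr p))

lemma enorm_kr_le {n : ℕ} (p : ℝ) (z : E n × E n) : ‖kr p z.1 z.2‖ₑ ≤ ke p z.1 z.2 := by
  unfold ke
  split_ifs
  · exact le_top
  · rw [← Real.enorm_eq_ofReal_abs]

/-- the facts about a probability measure with finite energy -/
lemma facts {n : ℕ} (p : ℝ) (σ : Measure (E n)) [IsProbabilityMeasure σ] (h : FinEn p σ σ) :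
    Integrable (fun z : E n × E n => kr p z.1 z.2) (σ.prod σ) ∧
    (∀ᵐ z ∂(σ.prod σ), z.1 ≠ z.2) ∧
    En p σ σ = ∫ z, kr p z.1 z.2 ∂(σ.prod σ) := by
  have h1 : ∫⁻ z, ke p z.1 z.2 ∂(σ.prod σ) < ⊤ := by
    rw [lintegral_prod _ (meas_ke p).aemeasurable]
    exact h
  have hint : Integrable (fun z : E n × E n => kr p z.1 z.2) (σ.prod σ) := by
    refine ⟨(meas_kr p).aestronglyMeasurable, ?_⟩
    exact (lintegral_mono (enorm_kr_le p)).trans_lt h1
  refine ⟨hint, ?_, ?_⟩
  · have h2 := ae_lt_top (meas_ke p) h1.ne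
    filter_upwards [h2] with z hz hzz
    simp [ke, hzz] at hz
  · rw [integral_prod _ hint]
    rfl

lemma mem_of {n : ℕ} {K : Set (E n)} (σ : Measure (E n)) [IsProbabilityMeasure σ] (h : σ Kᶜ = 0) :
    ∀ᵐ z ∂(σ.prod σ), z.1 ∈ K ∧ z.2 ∈ K := by
  have h1 : ∀ᵐ x ∂σ, x ∈ K := h
  have h2 : ∀ᵐ z ∂(σ.prod σ), z.1 ∈ K := Measure.quasiMeasurePreserving_fst.ae h1
  have h3 : ∀ᵐ z ∂(σ.prod σ), z.2 ∈ K := Measure.quasiMeasurePreserving_snd.ae h1
  filter_upwards [h2, h3] with z hz1 hz2 using ⟨hz1, hz2⟩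

/-- comparison of the infimum with the energy of a measure -/
lemma inf_le {n : ℕ} {K : Set (E n)} (σ : Measure (E n)) [IsProbabilityMeasure σ] (h : σ Kᶜ = 0)
    (f : E n → E n → ℝ≥0∞) (hf : Measurable (fun z : E n × E n => f z.1 z.2)) (g : E n × E n → ℝ)
    (hg : Integrable g (σ.prod σ)) (hfg : ∀ᵐ z ∂(σ.prod σ), f z.1 z.2 = ENNReal.ofReal (g z) ∧ 0 ≤ g z) :
    (⨅ (μ : Measure (E n)) (_ : μ Set.univ = 1 ∧ μ Kᶜ = 0), ∫⁻ x, ∫⁻ y, f x y ∂μ ∂μ).toReal ≤
      ∫ z, g z ∂(σ.prod σ) := by
  have h0 : 0 ≤ᵐ[σ.prod σ] g := by filter_upwards [hfg] with z hz using hz.2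
  refine ENNReal.toReal_le_of_le_ofReal (integral_nonneg_of_ae h0) ?_
  refine (iInf₂_le σ ⟨measure_univ, h⟩).trans (le_of_eq ?_)
  rw [ofReal_integral_eq_lintegral_ofReal hg h0, ← lintegral_prod (fun z : E n × E n => f z.1 z.2) hf.aemeasurable]
  exact lintegral_congr_ae (by filter_upwards [hfg] with z hz using hz.1)

theorem br1_proof : S_br1 := by
  intro n p hp K hK hcap
  by_cases hp0 : p = 0
  · subst hp0
    unfold cap at hcap ⊢
    rw [if_pos rfl] at hcap ⊢
    split_ifs at hcap ⊢ with hJ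
    · exact absurd hcap (lt_irrefl 0)
    · set J := (⨅ (μ : Measure (E n)) (_ : μ Set.univ = 1 ∧ μ Kᶜ = 0),
          ∫⁻ x, ∫⁻ y, (if x = y then (⊤ : ENNReal) else
            ENNReal.ofReal (Real.log ((Metric.diam K + 1) / dist x y))) ∂μ ∂μ) with hJdef
      have hd : 0 < Metric.diam K + 1 := by have := Metric.diam_nonneg (s := K); linarith
      refine ⟨J.toReal - Real.log (Metric.diam K + 1), fun h => absurd rfl h, ?_, ?_⟩
      · unfold Phi
        rw [if_pos rfl, Real.exp_sub, Real.exp_log hd, Real.exp_neg]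
        field_simp
      · intro σ hσ hσK hfin
        obtain ⟨hint, hne, hEn⟩ := facts 0 σ hfin
        have hmem := mem_of σ hσK
        have key : J.toReal ≤ ∫ z, (Real.log (Metric.diam K + 1) + kr 0 z.1 z.2) ∂(σ.prod σ) := by
          refine inf_le σ hσK (fun x y => if x = y then (⊤ : ENNReal) else
            ENNReal.ofReal (Real.log ((Metric.diam K + 1) / dist x y))) ?_ _ ((integrable_const _).add hint) ?_
          · refine Measurable.ite ?_ measurable_const ?_
            · exact measurableSet_eq_fun measurable_fst measurable_snd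
            · exact ENNReal.measurable_ofReal.comp (Real.measurable_log.comp
                (measurable_const.div (measurable_fst.dist measurable_snd)))
          · filter_upwards [hne, hmem] with z hz hzK
            have hdist : 0 < dist z.1 z.2 := dist_pos.2 hz
            have hle : dist z.1 z.2 ≤ Metric.diam K := Metric.dist_le_diam_of_mem hK.isBounded hzK.1 hzK.2
            have e : Real.log ((Metric.diam K + 1) / dist z.1 z.2) = Real.log (Metric.diam K + 1) + kr 0 z.1 z.2 := by
              unfold kr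
              rw [if_pos rfl, Real.log_div hd.ne' hdist.ne']
              ring
            rw [if_neg hz, ← e]
            refine ⟨rfl, Real.log_nonneg ?_⟩
            rw [le_div_iff₀ hdist]
            linarith
        rw [integral_add (integrable_const _) hint, ← hEn] at key
        simp at key
        linarith
  · have hp1 : 0 < p := lt_of_le_of_ne hp (Ne.symm hp0)
    unfold cap at hcap ⊢
    rw [if_neg hp0] at hcap ⊢
    set I := (⨅ (μ : Measure (E n)) (_ : μ Set.univ = 1 ∧ μ Kᶜ = 0),
          ∫⁻ x, ∫⁻ y, (edist x y) ^ (-p) ∂μ ∂μ) with hIdef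
    have hneg : -1 / p < 0 := div_neg_of_neg_of_pos (by norm_num) hp1
    rw [ENNReal.toReal_pos_iff] at hcap
    have hI0 : I ≠ 0 := by
      intro h
      rw [h, ENNReal.zero_rpow_of_neg hneg] at hcap
      exact lt_irrefl _ hcap.2
    have hIt : I ≠ ⊤ := by
      intro h
      rw [h, ENNReal.top_rpow_of_neg hneg] at hcap
      exact lt_irrefl _ hcap.1
    have hpos : 0 < I.toReal := ENNReal.toReal_pos hI0 hIt
    refine ⟨I.toReal, fun _ => hpos, ?_, ?_⟩
    · unfold Phi
      rw [if_neg hp0, ← ENNReal.toReal_rpow, show -1 / p = -(1 / p) by ring, Real.rpow_neg hpos.le, one_div, inv_inv]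
    · intro σ hσ hσK hfin
      obtain ⟨hint, hne, hEn⟩ := facts p σ hfin
      rw [hEn]
      refine inf_le σ hσK (fun x y => (edist x y) ^ (-p)) ?_ _ hint ?_
      · exact (measurable_fst.edist measurable_snd).pow_const _
      · filter_upwards [hne] with z hz
        have hdist : 0 < dist z.1 z.2 := dist_pos.2 hz
        unfold kr
        rw [if_neg hp0, edist_dist, ENNReal.ofReal_rpow_of_pos hdist]
        exact ⟨rfl, Real.rpow_nonneg hdist.le _⟩

end Pool.Agent.R345.RC
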